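import Mathlib
import Pool.Agent.Run7.h6.IA.GrLie

/-!
# Graded Lie rings that are free modulo quadratic relations

`GrLie.AssocLie G` is the graded Lie ring `E₀(G) = ⨁_{k ≥ 1} Γ_k G / Γ_{k+1} G` of the lower
central series of a group `G`; its homogeneous component of degree `k + 1` is the range of
`GrLie.ofL k`.
-/

namespace Run7.h6.IAQuad

open GrLie

/-- The additivity relations `[v + w] - [v] - [w]` in the free Lie ring on the set `V`. -/
def addRel (V : Type*) [AddCommGroup V] : Set (FreeLieAlgebra ℤ V) :=
  {x | ∃ v w : V, x = FreeLieAlgebra.of ℤ (v + w) - FreeLieAlgebra.of ℤ v -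
    FreeLieAlgebra.of ℤ w}

/-- The ideal generated by the additivity relations. -/
noncomputable def addIdeal (V : Type*) [AddCommGroup V] : LieIdeal ℤ (FreeLieAlgebra ℤ V) :=
  LieSubmodule.lieSpan ℤ (FreeLieAlgebra ℤ V) (addRel V)

/-- The free Lie ring `L[V]` on an abelian group `V`: the free Lie ring on the underlying set of
`V`, modulo the ideal making the inclusion of `V` additive. -/
def FreeLieRing (V : Type*) [AddCommGroup V] : Type _ := FreeLieAlgebra ℤ V ⧸ addIdeal V

noncomputable instance instLieRingFree (V : Type*) [AddCommGroup V] : LieRing (FreeLieRing V) :=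
  LieSubmodule.Quotient.lieQuotientLieRing (I := addIdeal V)

/-- The inclusion `V → L[V]` (onto the part of degree one). -/
noncomputable def gen {V : Type*} [AddCommGroup V] (v : V) : FreeLieRing V :=
  LieSubmodule.Quotient.mk (N := addIdeal V) (FreeLieAlgebra.of ℤ v)

/-- `homPart V k` is the homogeneous part `L_{k+1}[V]` of degree `k + 1` of the free Lie ring
`L[V]`: degree one is the image of `V`, and degree `k + 2` is spanned by the brackets `⁅v, y⁆`
with `v` in `V` and `y` homogeneous of degree `k + 1`. -/
noncomputable def homPart (V : Type*) [AddCommGroup V] : ℕ → AddSubgroup (FreeLieRing V)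
  | 0 => AddSubgroup.closure (Set.range (gen (V := V)))
  | k + 1 => AddSubgroup.closure {x | ∃ v : V, ∃ y ∈ homPart V k, x = ⁅gen v, y⁆}

/-- The Lie ideal of a Lie ring generated by a set. -/
noncomputable def idealGen {L : Type*} [LieRing L] (S : Set L) : LieIdeal ℤ L :=
  LieSubmodule.lieSpan ℤ L S

/-- The quotient of a Lie ring by the Lie ideal generated by a set. -/
def QuotGen {L : Type*} [LieRing L] (S : Set L) : Type _ := L ⧸ idealGen S

noncomputable instance instLieRingQuot {L : Type*} [LieRing L] (S : Set L) :
    LieRing (QuotGen S) :=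
  LieSubmodule.Quotient.lieQuotientLieRing (I := idealGen S)

/-- The projection to the quotient. -/
noncomputable def toQuot {L : Type*} [LieRing L] (S : Set L) (x : L) : QuotGen S :=
  LieSubmodule.Quotient.mk (N := idealGen S) x

/-- The graded Lie ring `E₀(G)` of the lower central series of `G` is *a free Lie algebra modulo
quadratic relations*: with `V = G/[G,G]`, there are a set `S` of elements of degree two of the
free Lie ring `L[V]` and an isomorphism of graded Lie rings from `L[V]/(S)` to `E₀(G)`, where
`(S)` is the Lie ideal generated by `S`. -/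
def IsFreeLieModQuadratic (G : Type*) [Group G] : Prop :=
  ∃ S : Set (FreeLieRing (Additive (Abelianization G))),
    (∀ s ∈ S, s ∈ homPart (Additive (Abelianization G)) 1) ∧
    ∃ ψ : QuotGen S ≃ₗ⁅ℤ⁆ AssocLie G, ∀ (k : ℕ) (y : AssocLie G),
      (∃ z : Grd G k, y = ofL k z) ↔
        ∃ x ∈ homPart (Additive (Abelianization G)) k, ψ (toQuot S x) = y

/-- The group `IA_n` of automorphisms of the free group of rank `n` which induce the identity on
the abelianization of the free group. -/
def IA (n : ℕ) : Subgroup (MulAut (FreeGroup (Fin n))) where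
  carrier := {φ | ∀ w, Abelianization.of (φ w) = Abelianization.of w}
  mul_mem' := by
    intro φ ψ hφ hψ w
    rw [MulAut.mul_apply, hφ, hψ]
  one_mem' := by
    intro w
    rfl
  inv_mem' := by
    intro φ hφ w
    have h := hφ (φ⁻¹ w)
    rw [MulAut.apply_inv_self] at h
    exact h.symm

end Run7.h6.IAQuad
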