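import Mathlib
import Pool.Agent.Run7.h6.IA.Defs

/-!
# The truncated Magnus group and the Johnson cocycles
-/

namespace Run7.h6.IAQuad

/-- Coefficients of degree one, two and three of a noncommutative power series with constant
term one in three variables. -/
@[ext] structure Mag where
  a : Fin 3 → ℤ
  b : Fin 3 → Fin 3 → ℤ
  c : Fin 3 → Fin 3 → Fin 3 → ℤ

namespace Mag

instance : Mul Mag where
  mul x y :=
    { a := fun i => x.a i + y.a i
      b := fun i j => x.b i j + y.b i j + x.a i * y.a j
      c := fun i j k => x.c i j k + y.c i j k + x.a i * y.b j k + x.b i j * y.a k }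

instance : One Mag where
  one := { a := fun _ => 0, b := fun _ _ => 0, c := fun _ _ _ => 0 }

instance : Inv Mag where
  inv x :=
    { a := fun i => - x.a i
      b := fun i j => - x.b i j + x.a i * x.a j
      c := fun i j k => - x.c i j k + x.a i * x.b j k + x.b i j * x.a k
        - x.a i * x.a j * x.a k }

@[simp] lemma mul_a (x y : Mag) (i) : (x * y).a i = x.a i + y.a i := rfl
@[simp] lemma mul_b (x y : Mag) (i j) : (x * y).b i j = x.b i j + y.b i j + x.a i * y.a j := rfl
@[simp] lemma mul_c (x y : Mag) (i j k) :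
    (x * y).c i j k = x.c i j k + y.c i j k + x.a i * y.b j k + x.b i j * y.a k := rfl
@[simp] lemma one_a (i) : (1 : Mag).a i = 0 := rfl
@[simp] lemma one_b (i j) : (1 : Mag).b i j = 0 := rfl
@[simp] lemma one_c (i j k) : (1 : Mag).c i j k = 0 := rfl
@[simp] lemma inv_a (x : Mag) (i) : (x⁻¹).a i = - x.a i := rfl
@[simp] lemma inv_b (x : Mag) (i j) : (x⁻¹).b i j = - x.b i j + x.a i * x.a j := rfl
@[simp] lemma inv_c (x : Mag) (i j k) : (x⁻¹).c i j k =
    - x.c i j k + x.a i * x.b j k + x.b i j * x.a k - x.a i * x.a j * x.a k := rfl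

instance : Group Mag where
  mul_assoc x y z := by
    ext i <;> simp <;> ring
  one_mul x := by ext i <;> simp
  mul_one x := by ext i <;> simp
  inv_mul_cancel x := by
    ext i <;> simp <;> ring

end Mag

/-- The truncated Magnus expansion. -/
def mag : FreeGroup (Fin 3) →* Mag :=
  FreeGroup.lift fun i =>
    { a := fun j => if i = j then 1 else 0, b := fun _ _ => 0, c := fun _ _ _ => 0 }

lemma mag_of (i : Fin 3) : mag (FreeGroup.of i) =
    { a := fun j => if i = j then 1 else 0, b := fun _ _ => 0, c := fun _ _ _ => 0 } := by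
  simp [mag]

/-- Coefficients of degree two: `b j k + b k j = a j * a k - [j = k] a j`. -/
lemma mag_shuffle (w : FreeGroup (Fin 3)) (j k : Fin 3) :
    (mag w).b j k + (mag w).b k j = (mag w).a j * (mag w).a k - (if j = k then (mag w).a j else 0) := by
  induction w using FreeGroup.induction_on with
  | C1 => simp
  | of i =>
    rw [mag_of]
    simp only
    by_cases hjk : j = k
    · subst hjk
      by_cases hij : i = j <;> simp [hij]
    · by_cases hij : i = j
      · subst hij
        simp [hjk]
      · simp [hij, hjk]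
  | inv_of i hi =>
    rw [map_inv]
    simp only [Mag.inv_b, Mag.inv_a]
    split_ifs at hi ⊢ <;> linarith
  | mul x y hx hy =>
    rw [map_mul]
    simp only [Mag.mul_b, Mag.mul_a]
    split_ifs at hx hy ⊢ with h
    · subst h
      linear_combination hx + hy
    · linear_combination hx + hy

/-- The exponent sums do not change under an `IA` automorphism. -/
lemma mag_a_eq {φ : MulAut (FreeGroup (Fin 3))} (hφ : φ ∈ IA 3) (w : FreeGroup (Fin 3))
    (i : Fin 3) : (mag (φ w)).a i = (mag w).a i := by
  let f : FreeGroup (Fin 3) →* Multiplicative ℤ :=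
    { toFun := fun w => Multiplicative.ofAdd ((mag w).a i)
      map_one' := by simp
      map_mul' := by
        intro x y
        rw [map_mul, Mag.mul_a, ofAdd_add] }
  have h1 : ∀ w, f w = Abelianization.lift f (Abelianization.of w) := by
    intro w
    rw [Abelianization.lift_apply_of]
  have h2 : f (φ w) = f w := by
    rw [h1, h1, hφ w]
  exact Multiplicative.ofAdd.injective h2

/-- The substitution endomorphism of the truncated Magnus group given by an `IA` automorphism. -/
def subst (φ : MulAut (FreeGroup (Fin 3))) : Mag →* Mag where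
  toFun x :=
    { a := x.a
      b := fun j k => x.b j k + ∑ i, x.a i * (mag (φ (FreeGroup.of i))).b j k
      c := fun j k l => x.c j k l + ∑ i, x.a i * (mag (φ (FreeGroup.of i))).c j k l +
        ∑ p, x.b p l * (mag (φ (FreeGroup.of p))).b j k +
        ∑ p, x.b j p * (mag (φ (FreeGroup.of p))).b k l }
  map_one' := by
    ext i <;> simp
  map_mul' x y := by
    ext i <;> simp [Fin.sum_univ_three] <;> ring

lemma subst_mag {φ : MulAut (FreeGroup (Fin 3))} (hφ : φ ∈ IA 3) (w : FreeGroup (Fin 3)) :
    mag (φ w) = subst φ (mag w) := by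
  have h : mag.comp φ.toMonoidHom = (subst φ).comp mag := by
    apply FreeGroup.ext_hom
    intro i
    have ha : ∀ j, (mag (φ (FreeGroup.of i))).a j = if i = j then 1 else 0 := by
      intro j
      rw [mag_a_eq hφ, mag_of]
    change mag (φ (FreeGroup.of i)) = subst φ (mag (FreeGroup.of i))
    rw [mag_of]
    ext j
    · simp [subst, ha]
    · simp [subst]
    · simp [subst]
  exact DFunLike.congr_fun h w

/-- Degree two coefficients of `φ (x_i)`. -/
def q (φ : MulAut (FreeGroup (Fin 3))) (i j k : Fin 3) : ℤ := (mag (φ (FreeGroup.of i))).b j k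

/-- Degree three coefficients of `φ (x_i)`. -/
def cc (φ : MulAut (FreeGroup (Fin 3))) (i j k l : Fin 3) : ℤ :=
  (mag (φ (FreeGroup.of i))).c j k l

lemma q_mul {φ ψ : MulAut (FreeGroup (Fin 3))} (hφ : φ ∈ IA 3) (hψ : ψ ∈ IA 3) (i j k : Fin 3) :
    q (φ * ψ) i j k = q φ i j k + q ψ i j k := by
  have ha : ∀ j, (mag (ψ (FreeGroup.of i))).a j = if i = j then 1 else 0 := by
    intro j
    rw [mag_a_eq hψ, mag_of]
  unfold q
  rw [MulAut.mul_apply, subst_mag hφ]
  simp only [subst, MonoidHom.coe_mk, OneHom.coe_mk, ha]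
  simp
  ring

lemma cc_mul {φ ψ : MulAut (FreeGroup (Fin 3))} (hφ : φ ∈ IA 3) (hψ : ψ ∈ IA 3)
    (i j k l : Fin 3) :
    cc (φ * ψ) i j k l = cc φ i j k l + cc ψ i j k l + ∑ p, q ψ i p l * q φ p j k +
      ∑ p, q ψ i j p * q φ p k l := by
  have ha : ∀ j, (mag (ψ (FreeGroup.of i))).a j = if i = j then 1 else 0 := by
    intro j
    rw [mag_a_eq hψ, mag_of]
  unfold cc q
  rw [MulAut.mul_apply, subst_mag hφ]
  simp only [subst, MonoidHom.coe_mk, OneHom.coe_mk, ha]
  simp
  ring

lemma q_antisymm {φ : MulAut (FreeGroup (Fin 3))} (hφ : φ ∈ IA 3) (i j k : Fin 3) :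
    q φ i j k = - q φ i k j := by
  have h := mag_shuffle (φ (FreeGroup.of i)) j k
  rw [mag_a_eq hφ, mag_a_eq hφ, mag_of] at h
  simp only at h
  have h2 : (if i = j then (1 : ℤ) else 0) * (if i = k then 1 else 0) -
      (if j = k then (if i = j then 1 else 0) else 0) = 0 := by
    split_ifs <;> simp_all
  rw [h2] at h
  unfold q
  linarith

lemma q_self {φ : MulAut (FreeGroup (Fin 3))} (hφ : φ ∈ IA 3) (i j : Fin 3) :
    q φ i j j = 0 := by
  have := q_antisymm hφ i j j
  linarith

end Run7.h6.IAQuad
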