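import Mathlib
import Pool.Agent.Run7.h6.IA.GrLie
import Pool.Agent.Run7.h6.IA.Defs
import Pool.Agent.Run7.h6.IA.Mag

/-!
# The Johnson cocycles on `IA_3`
-/

namespace Run7.h6.IAQuad

open GrLie
open scoped commutatorElement

/-- Three additive functions on `IA_3`. -/
def mA (φ : MulAut (FreeGroup (Fin 3))) : ℤ := q φ 0 0 1 + q φ 2 1 2
def mB (φ : MulAut (FreeGroup (Fin 3))) : ℤ := q φ 0 0 2 - q φ 1 1 2
def mE (φ : MulAut (FreeGroup (Fin 3))) : ℤ := q φ 0 1 2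

/-- Two functions on `IA_3`, additive on the commutator subgroup. -/
def jAB (φ : MulAut (FreeGroup (Fin 3))) : ℤ := cc φ 0 0 1 2 - cc φ 1 1 1 2
def jBE (φ : MulAut (FreeGroup (Fin 3))) : ℤ := - cc φ 0 1 2 2

lemma mA_mul {φ ψ : MulAut (FreeGroup (Fin 3))} (hφ : φ ∈ IA 3) (hψ : ψ ∈ IA 3) :
    mA (φ * ψ) = mA φ + mA ψ := by
  unfold mA; rw [q_mul hφ hψ, q_mul hφ hψ]; ring

lemma mB_mul {φ ψ : MulAut (FreeGroup (Fin 3))} (hφ : φ ∈ IA 3) (hψ : ψ ∈ IA 3) :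
    mB (φ * ψ) = mB φ + mB ψ := by
  unfold mB; rw [q_mul hφ hψ, q_mul hφ hψ]; ring

lemma mE_mul {φ ψ : MulAut (FreeGroup (Fin 3))} (hφ : φ ∈ IA 3) (hψ : ψ ∈ IA 3) :
    mE (φ * ψ) = mE φ + mE ψ := by
  unfold mE; rw [q_mul hφ hψ]

lemma jAB_diff {φ ψ : MulAut (FreeGroup (Fin 3))} (hφ : φ ∈ IA 3) (hψ : ψ ∈ IA 3) :
    jAB (φ * ψ) - jAB (ψ * φ) = mA φ * mB ψ - mA ψ * mB φ := by
  unfold jAB mA mB
  rw [cc_mul hφ hψ, cc_mul hφ hψ, cc_mul hψ hφ, cc_mul hψ hφ]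
  simp only [Fin.sum_univ_three]
  simp only [q_self hφ, q_self hψ, Fin.isValue]
  rw [q_antisymm hφ 1 1 0, q_antisymm hψ 1 1 0]
  ring

lemma jBE_diff {φ ψ : MulAut (FreeGroup (Fin 3))} (hφ : φ ∈ IA 3) (hψ : ψ ∈ IA 3) :
    jBE (φ * ψ) - jBE (ψ * φ) = mB φ * mE ψ - mB ψ * mE φ := by
  unfold jBE mB mE
  rw [cc_mul hφ hψ, cc_mul hψ hφ]
  simp only [Fin.sum_univ_three]
  simp only [q_self hφ, q_self hψ, Fin.isValue]
  ring

lemma jAB_mul_of_q {κ ψ : MulAut (FreeGroup (Fin 3))} (hκ : κ ∈ IA 3) (hψ : ψ ∈ IA 3)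
    (h : ∀ i j k, q κ i j k = 0) : jAB (κ * ψ) = jAB κ + jAB ψ := by
  unfold jAB
  rw [cc_mul hκ hψ, cc_mul hκ hψ]
  simp [h]
  ring

lemma jBE_mul_of_q {κ ψ : MulAut (FreeGroup (Fin 3))} (hκ : κ ∈ IA 3) (hψ : ψ ∈ IA 3)
    (h : ∀ i j k, q κ i j k = 0) : jBE (κ * ψ) = jBE κ + jBE ψ := by
  unfold jBE
  rw [cc_mul hκ hψ]
  simp [h]
  ring

/-- `q` vanishes on the commutator subgroup. -/
lemma q_lcs_one (g : IA 3) (hg : g ∈ lcs (IA 3) 1) (i j k : Fin 3) :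
    q (g : MulAut (FreeGroup (Fin 3))) i j k = 0 := by
  let f : IA 3 →* Multiplicative ℤ :=
    { toFun := fun φ => Multiplicative.ofAdd (q (φ : MulAut (FreeGroup (Fin 3))) i j k)
      map_one' := by
        have h := q_mul (IA 3).one_mem (IA 3).one_mem i j k
        rw [mul_one] at h
        have h2 : q (1 : MulAut (FreeGroup (Fin 3))) i j k = 0 := by linarith
        change Multiplicative.ofAdd (q (1 : MulAut (FreeGroup (Fin 3))) i j k) = 1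
        rw [h2]; rfl
      map_mul' := by
        intro x y
        change Multiplicative.ofAdd (q ((x : MulAut (FreeGroup (Fin 3))) * y) i j k) = _
        rw [q_mul x.2 y.2, ofAdd_add] }
  have hle : lcs (IA 3) 1 ≤ f.ker := by
    rw [lcs, Subgroup.lowerCentralSeries_succ, Subgroup.lowerCentralSeries_zero,
      Subgroup.commutator_le]
    intro x _ y _
    rw [MonoidHom.mem_ker, map_commutatorElement]
    exact commutatorElement_eq_one_iff_mul_comm.2 (mul_comm _ _)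
  have := hle hg
  rw [MonoidHom.mem_ker] at this
  exact Multiplicative.ofAdd.injective this

lemma j_comm (φ ψ : IA 3) (j : MulAut (FreeGroup (Fin 3)) → ℤ)
    (hj : ∀ {κ ψ : MulAut (FreeGroup (Fin 3))}, κ ∈ IA 3 → ψ ∈ IA 3 →
      (∀ i j k, q κ i j k = 0) → j (κ * ψ) = j κ + j ψ) :
    j ((⁅φ, ψ⁆ : IA 3) : MulAut (FreeGroup (Fin 3))) =
      j ((φ : MulAut (FreeGroup (Fin 3))) * ψ) - j ((ψ : MulAut (FreeGroup (Fin 3))) * φ) := by
  have hmem : (⁅φ, ψ⁆ : IA 3) ∈ lcs (IA 3) 1 := by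
    have := lcs_comm_mem (G := IA 3) (m := 0) (n := 0) (Subgroup.mem_top φ) (Subgroup.mem_top ψ)
    exact this
  have h := hj (κ := ((⁅φ, ψ⁆ : IA 3) : MulAut (FreeGroup (Fin 3))))
    (ψ := (ψ : MulAut (FreeGroup (Fin 3))) * φ) (⁅φ, ψ⁆ : IA 3).2 ((IA 3).mul_mem ψ.2 φ.2)
    (q_lcs_one _ hmem)
  have h2 : ((⁅φ, ψ⁆ : IA 3) : MulAut (FreeGroup (Fin 3))) *
      ((ψ : MulAut (FreeGroup (Fin 3))) * φ) = (φ : MulAut (FreeGroup (Fin 3))) * ψ := by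
    rw [commutatorElement_def]
    push_cast
    group
  rw [h2] at h
  linarith

lemma j_lcs_two (j : MulAut (FreeGroup (Fin 3)) → ℤ)
    (hj : ∀ {κ ψ : MulAut (FreeGroup (Fin 3))}, κ ∈ IA 3 → ψ ∈ IA 3 →
      (∀ i j k, q κ i j k = 0) → j (κ * ψ) = j κ + j ψ)
    (hd : ∀ {κ ψ : MulAut (FreeGroup (Fin 3))}, κ ∈ IA 3 → ψ ∈ IA 3 →
      (∀ i j k, q κ i j k = 0) → j (κ * ψ) - j (ψ * κ) = 0)
    (g : IA 3) (hg : g ∈ lcs (IA 3) 2) : j (g : MulAut (FreeGroup (Fin 3))) = 0 := by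
  let f : lcs (IA 3) 1 →* Multiplicative ℤ :=
    { toFun := fun φ => Multiplicative.ofAdd (j ((φ : IA 3) : MulAut (FreeGroup (Fin 3))))
      map_one' := by
        have h := hj (IA 3).one_mem (IA 3).one_mem
          (q_lcs_one (1 : IA 3) (lcs (IA 3) 1).one_mem)
        rw [mul_one] at h
        have h2 : j (1 : MulAut (FreeGroup (Fin 3))) = 0 := by linarith
        change Multiplicative.ofAdd (j (1 : MulAut (FreeGroup (Fin 3)))) = 1
        rw [h2]; rfl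
      map_mul' := by
        intro x y
        change Multiplicative.ofAdd (j (((x : IA 3) : MulAut (FreeGroup (Fin 3))) *
          ((y : IA 3) : MulAut (FreeGroup (Fin 3))))) = _
        rw [hj (x : IA 3).2 (y : IA 3).2 (q_lcs_one _ x.2), ofAdd_add] }
  have hle : lcs (IA 3) 2 ≤ f.ker.map (lcs (IA 3) 1).subtype := by
    have e : lcs (IA 3) 2 = ⁅lcs (IA 3) 1, (⊤ : Subgroup (IA 3))⁆ := by
      rw [lcs, lcs, Subgroup.lowerCentralSeries_succ]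
    rw [e, Subgroup.commutator_le]
    intro x hx y _
    have hxy : ⁅x, y⁆ ∈ lcs (IA 3) 1 :=
      lcs_anti (G := IA 3) (m := 1) (n := 2) (by omega)
        (lcs_comm_mem (G := IA 3) (m := 1) (n := 0) hx (Subgroup.mem_top y))
    refine ⟨⟨⁅x, y⁆, hxy⟩, ?_, rfl⟩
    change _ ∈ f.ker
    rw [MonoidHom.mem_ker]
    change Multiplicative.ofAdd (j ((⁅x, y⁆ : IA 3) : MulAut (FreeGroup (Fin 3)))) = 1
    rw [j_comm x y j hj, hd x.2 y.2 (q_lcs_one _ hx)]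
    rfl
  obtain ⟨g', hg', rfl⟩ := hle hg
  have : g' ∈ f.ker := hg'
  rw [MonoidHom.mem_ker] at this
  exact Multiplicative.ofAdd.injective this

end Run7.h6.IAQuad
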