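import Mathlib
import Pool.Agent.Run7.h6.IA.GrLie
import Pool.Agent.Run7.h6.IA.Defs
import Pool.Agent.Run7.h6.IA.Mag
import Pool.Agent.Run7.h6.IA.Coc

/-!
# `E₀(IA_3)` is not a free Lie algebra modulo quadratic relations
-/

namespace Run7.h6.IAQuad

open GrLie
open scoped commutatorElement

attribute [local instance 100] LieRing.ofAssociativeRing

/-! ### Additive maps out of the graded pieces -/

/-- An additive map on `γ_{n+1}/γ_{n+2}` given by a function on `γ_{n+1}`. -/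
def liftGr {G : Type*} [Group G] (n : ℕ) (f : lcs G n → ℤ) (hf : ∀ x y, f (x * y) = f x + f y)
    (hk : ∀ x : lcs G n, (x : G) ∈ lcs G (n + 1) → f x = 0) : Grd G n →+ ℤ :=
  MonoidHom.toAdditiveLeft (QuotientGroup.lift ((lcs G (n + 1)).subgroupOf (lcs G n))
    ({ toFun := fun x => Multiplicative.ofAdd (f x)
       map_one' := by
        have h := hf 1 1
        rw [mul_one] at h
        have h2 : f 1 = 0 := by linarith
        rw [h2]; rfl
       map_mul' := by
        intro x y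
        rw [hf, ofAdd_add] } : lcs G n →* Multiplicative ℤ)
    (by
      intro x hx
      have : f x = 0 := hk x hx
      change Multiplicative.ofAdd (f x) = 1
      rw [this]; rfl))

lemma liftGr_mk {G : Type*} [Group G] (n : ℕ) (f : lcs G n → ℤ)
    (hf : ∀ x y, f (x * y) = f x + f y)
    (hk : ∀ x : lcs G n, (x : G) ∈ lcs G (n + 1) → f x = 0) (g : lcs G n) :
    liftGr n f hf hk (grMk n g) = f g := rfl

/-- `mA` as an additive map on the abelianization. -/
def gA : Grd (IA 3) 0 →+ ℤ :=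
  liftGr 0 (fun g => mA ((g : IA 3) : MulAut (FreeGroup (Fin 3))))
    (fun x y => mA_mul (x : IA 3).2 (y : IA 3).2)
    (fun x hx => by
      have h := q_lcs_one _ hx
      simp only [mA, h]; norm_num)

def gB : Grd (IA 3) 0 →+ ℤ :=
  liftGr 0 (fun g => mB ((g : IA 3) : MulAut (FreeGroup (Fin 3))))
    (fun x y => mB_mul (x : IA 3).2 (y : IA 3).2)
    (fun x hx => by
      have h := q_lcs_one _ hx
      simp only [mB, h]; norm_num)

def gE : Grd (IA 3) 0 →+ ℤ :=
  liftGr 0 (fun g => mE ((g : IA 3) : MulAut (FreeGroup (Fin 3))))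
    (fun x y => mE_mul (x : IA 3).2 (y : IA 3).2)
    (fun x hx => by
      have h := q_lcs_one _ hx
      simp only [mE, h])

lemma m_zero_of_q {κ : MulAut (FreeGroup (Fin 3))} (h : ∀ i j k, q κ i j k = 0) :
    mA κ = 0 ∧ mB κ = 0 ∧ mE κ = 0 := by
  refine ⟨?_, ?_, ?_⟩ <;> simp [mA, mB, mE, h]

def gAB : Grd (IA 3) 1 →+ ℤ :=
  liftGr 1 (fun g => jAB ((g : IA 3) : MulAut (FreeGroup (Fin 3))))
    (fun x y => jAB_mul_of_q (x : IA 3).2 (y : IA 3).2 (q_lcs_one _ x.2))
    (fun x hx => j_lcs_two jAB jAB_mul_of_q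
      (fun hκ hψ h => by
        rw [jAB_diff hκ hψ, (m_zero_of_q h).1, (m_zero_of_q h).2.1]; ring) _ hx)

def gBE : Grd (IA 3) 1 →+ ℤ :=
  liftGr 1 (fun g => jBE ((g : IA 3) : MulAut (FreeGroup (Fin 3))))
    (fun x y => jBE_mul_of_q (x : IA 3).2 (y : IA 3).2 (q_lcs_one _ x.2))
    (fun x hx => j_lcs_two jBE jBE_mul_of_q
      (fun hκ hψ h => by
        rw [jBE_diff hκ hψ, (m_zero_of_q h).2.1, (m_zero_of_q h).2.2]; ring) _ hx)

lemma gAB_br (x y : Grd (IA 3) 0) : gAB (grBr 0 0 x y) = gA x * gB y - gA y * gB x := by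
  obtain ⟨g, rfl⟩ := grMk_surj 0 x
  obtain ⟨h, rfl⟩ := grMk_surj 0 y
  rw [grBr_mk]
  change jAB ((⁅(g : IA 3), (h : IA 3)⁆ : IA 3) : MulAut (FreeGroup (Fin 3))) = _
  rw [j_comm _ _ jAB jAB_mul_of_q, jAB_diff (g : IA 3).2 (h : IA 3).2]
  rfl

lemma gBE_br (x y : Grd (IA 3) 0) : gBE (grBr 0 0 x y) = gB x * gE y - gB y * gE x := by
  obtain ⟨g, rfl⟩ := grMk_surj 0 x
  obtain ⟨h, rfl⟩ := grMk_surj 0 y
  rw [grBr_mk]
  change jBE ((⁅(g : IA 3), (h : IA 3)⁆ : IA 3) : MulAut (FreeGroup (Fin 3))) = _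
  rw [j_comm _ _ jBE jBE_mul_of_q, jBE_diff (g : IA 3).2 (h : IA 3).2]
  rfl

/-! ### Three automorphisms -/

/-- The automorphism of the free group of rank three given by `x₀ ↦ u x₀ v`, where `u` and `v`
are words in `x₁, x₂`. -/
def endo (u v : FreeGroup (Fin 2)) : FreeGroup (Fin 3) →* FreeGroup (Fin 3) :=
  FreeGroup.lift ![FreeGroup.map Fin.succ u * FreeGroup.of 0 * FreeGroup.map Fin.succ v,
    FreeGroup.of 1, FreeGroup.of 2]

lemma endo_map (u v w : FreeGroup (Fin 2)) :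
    endo u v (FreeGroup.map Fin.succ w) = FreeGroup.map Fin.succ w := by
  have h : (endo u v).comp (FreeGroup.map Fin.succ) = FreeGroup.map Fin.succ := by
    apply FreeGroup.ext_hom
    intro i
    fin_cases i <;> simp [endo]
  exact DFunLike.congr_fun h w

lemma endo_zero (u v : FreeGroup (Fin 2)) : endo u v (FreeGroup.of 0) =
    FreeGroup.map Fin.succ u * FreeGroup.of 0 * FreeGroup.map Fin.succ v := by
  simp [endo]

lemma endo_one (u v : FreeGroup (Fin 2)) : endo u v (FreeGroup.of 1) = FreeGroup.of 1 := by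
  simp [endo]

lemma endo_two (u v : FreeGroup (Fin 2)) : endo u v (FreeGroup.of 2) = FreeGroup.of 2 := by
  simp [endo]

lemma endo_comp (u v u' v' : FreeGroup (Fin 2)) :
    (endo u v).comp (endo u' v') = endo (u' * u) (v * v') := by
  apply FreeGroup.ext_hom
  intro i
  fin_cases i
  · change endo u v (endo u' v' (FreeGroup.of 0)) = endo (u' * u) (v * v') (FreeGroup.of 0)
    rw [endo_zero, map_mul, map_mul, endo_map, endo_map, endo_zero, endo_zero, map_mul, map_mul]
    group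
  · change endo u v (endo u' v' (FreeGroup.of 1)) = endo (u' * u) (v * v') (FreeGroup.of 1)
    rw [endo_one, endo_one, endo_one]
  · change endo u v (endo u' v' (FreeGroup.of 2)) = endo (u' * u) (v * v') (FreeGroup.of 2)
    rw [endo_two, endo_two, endo_two]

lemma endo_id : endo 1 1 = MonoidHom.id _ := by
  apply FreeGroup.ext_hom
  intro i
  fin_cases i
  · change endo 1 1 (FreeGroup.of 0) = FreeGroup.of 0
    rw [endo_zero]; simp
  · change endo 1 1 (FreeGroup.of 1) = FreeGroup.of 1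
    rw [endo_one]
  · change endo 1 1 (FreeGroup.of 2) = FreeGroup.of 2
    rw [endo_two]

/-- `x₀ ↦ u x₀ v` as an automorphism. -/
def aut (u v : FreeGroup (Fin 2)) : MulAut (FreeGroup (Fin 3)) :=
  MonoidHom.toMulEquiv (endo u v) (endo u⁻¹ v⁻¹)
    (by rw [endo_comp]; simp [endo_id]) (by rw [endo_comp]; simp [endo_id])

lemma aut_apply (u v : FreeGroup (Fin 2)) (w : FreeGroup (Fin 3)) : aut u v w = endo u v w := rfl

lemma aut_mul (u v u' v' : FreeGroup (Fin 2)) :
    aut u v * aut u' v' = aut (u' * u) (v * v') := by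
  ext w
  rw [MulAut.mul_apply, aut_apply, aut_apply, aut_apply, ← endo_comp]
  rfl

lemma aut_inv (u v : FreeGroup (Fin 2)) : (aut u v)⁻¹ = aut u⁻¹ v⁻¹ := by
  rw [inv_eq_iff_mul_eq_one, aut_mul]
  ext w
  rw [aut_apply]
  simp [endo_id]

lemma aut_mem (u v : FreeGroup (Fin 2)) (h : Abelianization.of (u * v) = 1) :
    aut u v ∈ IA 3 := by
  intro w
  rw [aut_apply]
  have hcomp : (Abelianization.of (G := FreeGroup (Fin 3))).comp (endo u v) =
      Abelianization.of := by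
    apply FreeGroup.ext_hom
    intro i
    fin_cases i
    · change Abelianization.of (endo u v (FreeGroup.of 0)) = Abelianization.of (FreeGroup.of 0)
      rw [endo_zero, map_mul, map_mul]
      have h1 : Abelianization.of (FreeGroup.map Fin.succ u) *
          Abelianization.of (FreeGroup.map Fin.succ v : FreeGroup (Fin 3)) = 1 := by
        rw [← map_mul, ← map_mul]
        have := congrArg (Abelianization.map (FreeGroup.map (Fin.succ (n := 2)))) h
        rw [Abelianization.map_of, map_one] at this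
        exact this
      calc _ = (Abelianization.of (FreeGroup.map Fin.succ u) *
          Abelianization.of (FreeGroup.map Fin.succ v : FreeGroup (Fin 3))) *
            Abelianization.of (FreeGroup.of 0) := by
            rw [mul_assoc, mul_assoc, mul_comm (Abelianization.of (FreeGroup.of 0))]
        _ = _ := by rw [h1, one_mul]
    · change Abelianization.of (endo u v (FreeGroup.of 1)) = Abelianization.of (FreeGroup.of 1)
      rw [endo_one]
    · change Abelianization.of (endo u v (FreeGroup.of 2)) = Abelianization.of (FreeGroup.of 2)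
      rw [endo_two]
  exact DFunLike.congr_fun hcomp w

/-- The commutator `x₂⁻¹ x₁⁻¹ x₂ x₁`, as a word in two letters. -/
def cw : FreeGroup (Fin 2) :=
  (FreeGroup.of 1)⁻¹ * (FreeGroup.of 0)⁻¹ * FreeGroup.of 1 * FreeGroup.of 0

/-- `x₀ ↦ x₁ x₀ x₁⁻¹`. -/
def k1 : IA 3 := ⟨aut (FreeGroup.of 0) (FreeGroup.of 0)⁻¹, aut_mem _ _ (by simp)⟩

/-- `x₀ ↦ x₂ x₀ x₂⁻¹`. -/
def k2 : IA 3 := ⟨aut (FreeGroup.of 1) (FreeGroup.of 1)⁻¹, aut_mem _ _ (by simp)⟩

/-- `x₀ ↦ x₀ c`, with `c` the commutator of `x₁` and `x₂`. -/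
def k3 : IA 3 := ⟨aut 1 cw, aut_mem _ _ (by
  simp only [cw, one_mul, map_mul, map_inv]
  rw [← mul_inv_rev, mul_assoc, mul_comm (Abelianization.of (FreeGroup.of (1 : Fin 2))),
    inv_mul_cancel])⟩

/-- The key relation in `IA_3`. -/
lemma key_relation : ⁅⁅k1, k2⁆, k3⁆ = (1 : IA 3) := by
  apply Subtype.ext
  have h12 : ((⁅k1, k2⁆ : IA 3) : MulAut (FreeGroup (Fin 3))) = aut cw cw⁻¹ := by
    rw [commutatorElement_def]
    push_cast
    change aut _ _ * aut _ _ * (aut _ _)⁻¹ * (aut _ _)⁻¹ = _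
    rw [aut_inv, aut_inv, aut_mul, aut_mul, aut_mul]
    have e1 : (FreeGroup.of (1 : Fin 2))⁻¹ * ((FreeGroup.of 0)⁻¹ * (FreeGroup.of 1 *
        FreeGroup.of 0)) = cw := by
      simp only [cw]; group
    have e2 : (FreeGroup.of (0 : Fin 2))⁻¹ * (FreeGroup.of 1)⁻¹ * (FreeGroup.of 0)⁻¹⁻¹ *
        (FreeGroup.of 1)⁻¹⁻¹ = cw⁻¹ := by
      simp only [cw]; group
    rw [e1, e2]
  rw [commutatorElement_def]
  push_cast
  rw [h12]
  change aut _ _ * aut _ _ * (aut _ _)⁻¹ * (aut _ _)⁻¹ = 1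
  rw [aut_inv, aut_inv, aut_mul, aut_mul, aut_mul]
  have h1 : aut 1 1 = 1 := by
    ext w
    rw [aut_apply, endo_id]; rfl
  rw [← h1]
  congr 1
  · group
  · group

lemma m_k1 : mA k1 = -1 ∧ mB k1 = 0 ∧ mE k1 = 0 := by
  refine ⟨?_, ?_, ?_⟩ <;>
  simp [mA, mB, mE, q, k1, aut_apply, endo_zero, endo_one, endo_two, mag_of]

lemma m_k2 : mA k2 = 0 ∧ mB k2 = -1 ∧ mE k2 = 0 := by
  refine ⟨?_, ?_, ?_⟩ <;>
  simp [mA, mB, mE, q, k2, aut_apply, endo_zero, endo_one, endo_two, mag_of]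

lemma m_k3 : mA k3 = 0 ∧ mB k3 = 0 ∧ mE k3 = -1 := by
  refine ⟨?_, ?_, ?_⟩ <;>
  simp [mA, mB, mE, q, k3, cw, aut_apply, endo_zero, endo_one, endo_two, mag_of]

end Run7.h6.IAQuad
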