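import Mathlib
import Pool.Agent.Run7.h6.IA.GrLie
import Pool.Agent.Run7.h6.IA.Defs
import Pool.Agent.Run7.h6.IA.Mag
import Pool.Agent.Run7.h6.IA.Coc
import Pool.Agent.Run7.h6.IA.Main

/-!
# `E₀(IA_3)` is not a free Lie algebra modulo quadratic relations
-/

namespace Run7.h6.IAQuad

open GrLie
open scoped commutatorElement

attribute [local instance 100] LieRing.ofAssociativeRing

/-! ### The free Lie ring on an abelian group -/

section FreeLie

variable {V : Type*} [AddCommGroup V]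

lemma gen_add (v w : V) : gen (v + w) = gen v + gen w := by
  have h : FreeLieAlgebra.of ℤ (v + w) - FreeLieAlgebra.of ℤ v - FreeLieAlgebra.of ℤ w ∈
      addIdeal V := LieSubmodule.subset_lieSpan ⟨v, w, rfl⟩
  have h2 : (LieSubmodule.Quotient.mk (FreeLieAlgebra.of ℤ (v + w) - FreeLieAlgebra.of ℤ v -
      FreeLieAlgebra.of ℤ w) : FreeLieAlgebra ℤ V ⧸ addIdeal V) = 0 :=
    LieSubmodule.Quotient.mk_eq_zero'.2 h
  change gen (v + w) - gen v - gen w = 0 at h2
  rw [sub_sub, sub_eq_zero] at h2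
  exact h2

/-- `gen` as an additive map. -/
noncomputable def genHom : V →+ FreeLieRing V := AddMonoidHom.mk' gen gen_add

lemma mem_homPart_zero {x : FreeLieRing V} (hx : x ∈ homPart V 0) : ∃ v, gen v = x := by
  have h : homPart V 0 ≤ (genHom (V := V)).range := by
    simp only [homPart]
    rw [AddSubgroup.closure_le]
    rintro _ ⟨v, rfl⟩
    exact ⟨v, rfl⟩
  obtain ⟨v, hv⟩ := h hx
  exact ⟨v, hv⟩

lemma gen_mem_homPart (v : V) : gen v ∈ homPart V 0 := by
  simp only [homPart]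
  exact AddSubgroup.subset_closure ⟨v, rfl⟩

/-- The Lie ring map out of the free Lie ring on a set, as a map of `ℤ`-Lie algebras. -/
noncomputable def freeLift {L : Type*} [LieRing L] (f : V → L) :
    @LieHom ℤ (FreeLieAlgebra ℤ V) L _ _ LieRing.instLieAlgebra _ LieRing.instLieAlgebra :=
  letI : LieAlgebra ℤ (FreeLieAlgebra ℤ V) := LieRing.instLieAlgebra
  { toFun := @FreeLieAlgebra.lift ℤ V _ L _ LieRing.instLieAlgebra f
    map_add' := fun x y => map_add (@FreeLieAlgebra.lift ℤ V _ L _ LieRing.instLieAlgebra f) x y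
    map_smul' := fun n x => by
      exact map_zsmul (@FreeLieAlgebra.lift ℤ V _ L _ LieRing.instLieAlgebra f) n x
    map_lie' := fun {x y} =>
      LieHom.map_lie (@FreeLieAlgebra.lift ℤ V _ L _ LieRing.instLieAlgebra f) x y }

lemma freeLift_of {L : Type*} [LieRing L] (f : V → L) (v : V) :
    freeLift f (FreeLieAlgebra.of ℤ v) = f v :=
  FreeLieAlgebra.lift_of_apply ..

/-- The Lie ring map out of `L[V]` given by an additive map on `V`. -/
noncomputable def liftLie {L : Type*} [LieRing L] (f : V →+ L) : FreeLieRing V →ₗ⁅ℤ⁆ L :=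
  { (addIdeal V).toSubmodule.liftQ (freeLift (f : V → L)).toLinearMap (by
      intro x hx
      have hle : addIdeal V ≤ (freeLift (f : V → L)).ker := by
        rw [addIdeal, LieSubmodule.lieSpan_le]
        rintro _ ⟨v, w, rfl⟩
        rw [SetLike.mem_coe, LieHom.mem_ker, map_sub, map_sub, freeLift_of,
          freeLift_of, freeLift_of, map_add]
        abel
      have := hle hx
      rw [LieHom.mem_ker] at this
      exact this) with
    map_lie' := by
      intro x y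
      obtain ⟨x, rfl⟩ := Submodule.Quotient.mk_surjective _ x
      obtain ⟨y, rfl⟩ := Submodule.Quotient.mk_surjective _ y
      exact LieHom.map_lie (freeLift (f : V → L)) x y }

lemma liftLie_gen {L : Type*} [LieRing L] (f : V →+ L) (v : V) : liftLie f (gen v) = f v :=
  freeLift_of (f : V → L) v

end FreeLie

/-! ### The matrix Lie ring -/

/-- The strictly upper triangular matrix with three given entries on the first diagonal. -/
def dmat (a b e : ℤ) : Matrix (Fin 4) (Fin 4) ℤ :=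
  !![0, a, 0, 0; 0, 0, b, 0; 0, 0, 0, e; 0, 0, 0, 0]

/-- The strictly upper triangular matrix with two given entries on the second diagonal. -/
def emat (r s : ℤ) : Matrix (Fin 4) (Fin 4) ℤ :=
  !![0, 0, r, 0; 0, 0, 0, s; 0, 0, 0, 0; 0, 0, 0, 0]

lemma dmat_add (a b e a' b' e' : ℤ) :
    dmat (a + a') (b + b') (e + e') = dmat a b e + dmat a' b' e' := by
  ext i j; fin_cases i <;> fin_cases j <;> simp [dmat]

lemma emat_add (r s r' s' : ℤ) : emat (r + r') (s + s') = emat r s + emat r' s' := by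
  ext i j; fin_cases i <;> fin_cases j <;> simp [emat]

lemma dmat_lie (a b e a' b' e' : ℤ) : ⁅dmat a b e, dmat a' b' e'⁆ =
    emat (a * b' - a' * b) (b * e' - b' * e) := by
  rw [LieRing.of_associative_ring_bracket]
  ext i j
  fin_cases i <;> fin_cases j <;>
    simp [dmat, emat, Matrix.mul_apply, Fin.sum_univ_four]

/-- The additive map on `V` to the matrix Lie ring. -/
def vmat {V : Type*} [AddCommGroup V] (θ : V →+ Grd (IA 3) 0) :
    V →+ Matrix (Fin 4) (Fin 4) ℤ :=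
  AddMonoidHom.mk' (fun v => dmat (gA (θ v)) (gB (θ v)) (gE (θ v))) (by
    intro v w
    rw [map_add, map_add, map_add, map_add, dmat_add])

/-- The additive map on `γ₂/γ₃` to the matrix Lie ring. -/
def wmat : Grd (IA 3) 1 →+ Matrix (Fin 4) (Fin 4) ℤ :=
  AddMonoidHom.mk' (fun v => emat (gAB v) (gBE v)) (by
    intro v w
    rw [map_add, map_add, emat_add])

/-- Projection of the associated Lie ring to a homogeneous component. -/
def proj {G : Type*} [Group G] (n : ℕ) : AssocLie G →+ Grd G n :=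
  DFinsupp.evalAddMonoidHom n

lemma proj_ofL {G : Type*} [Group G] (n : ℕ) (x : Grd G n) : proj n (ofL n x) = x :=
  DirectSum.of_eq_same n x

lemma g_k1 : gA (grMk 0 ⟨k1, Subgroup.mem_top _⟩) = -1 ∧ gB (grMk 0 ⟨k1, Subgroup.mem_top _⟩) = 0 ∧
    gE (grMk 0 ⟨k1, Subgroup.mem_top _⟩) = 0 := by
  refine ⟨?_, ?_, ?_⟩
  · exact (liftGr_mk _ _ _ _ _).trans m_k1.1
  · exact (liftGr_mk _ _ _ _ _).trans m_k1.2.1
  · exact (liftGr_mk _ _ _ _ _).trans m_k1.2.2

lemma g_k2 : gA (grMk 0 ⟨k2, Subgroup.mem_top _⟩) = 0 ∧ gB (grMk 0 ⟨k2, Subgroup.mem_top _⟩) = -1 ∧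
    gE (grMk 0 ⟨k2, Subgroup.mem_top _⟩) = 0 := by
  refine ⟨?_, ?_, ?_⟩
  · exact (liftGr_mk _ _ _ _ _).trans m_k2.1
  · exact (liftGr_mk _ _ _ _ _).trans m_k2.2.1
  · exact (liftGr_mk _ _ _ _ _).trans m_k2.2.2

lemma g_k3 : gA (grMk 0 ⟨k3, Subgroup.mem_top _⟩) = 0 ∧ gB (grMk 0 ⟨k3, Subgroup.mem_top _⟩) = 0 ∧
    gE (grMk 0 ⟨k3, Subgroup.mem_top _⟩) = -1 := by
  refine ⟨?_, ?_, ?_⟩
  · exact (liftGr_mk _ _ _ _ _).trans m_k3.1
  · exact (liftGr_mk _ _ _ _ _).trans m_k3.2.1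
  · exact (liftGr_mk _ _ _ _ _).trans m_k3.2.2

/-- The class of `⁅⁅k1, k2⁆, k3⁆` vanishes. -/
lemma lie_k_eq_zero : (⁅⁅(ofL 0 (grMk 0 (⟨k1, Subgroup.mem_top _⟩ : lcs (IA 3) 0)) :
    AssocLie (IA 3)), ofL 0 (grMk 0 (⟨k2, Subgroup.mem_top _⟩ : lcs (IA 3) 0))⁆,
    ofL 0 (grMk 0 (⟨k3, Subgroup.mem_top _⟩ : lcs (IA 3) 0))⁆ : AssocLie (IA 3)) = 0 := by
  change lieHom (lieHom (mkL 0 (⟨k1, Subgroup.mem_top _⟩ : lcs (IA 3) 0))
    (mkL 0 (⟨k2, Subgroup.mem_top _⟩ : lcs (IA 3) 0)))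
    (mkL 0 (⟨k3, Subgroup.mem_top _⟩ : lcs (IA 3) 0)) = 0
  rw [lieHom_mkL, lieHom_mkL, ← mkL_one (0 + 0 + 1 + 0 + 1)]
  apply mkL_congr rfl
  exact key_relation

/-- The graded Lie ring of the lower central series of `IA_3` is not a free Lie algebra modulo
quadratic relations. -/
theorem not_isFreeLieModQuadratic_IA3 : ¬ IsFreeLieModQuadratic (IA 3) := by
  rintro ⟨S, hS, ψ, hψ⟩
  set V := Additive (Abelianization (IA 3)) with hV
  -- the composite `L[V] → L[V]/(S) → E₀`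
  let p : FreeLieRing V → AssocLie (IA 3) := fun x => ψ (toQuot S x)
  have p_add : ∀ x y, p (x + y) = p x + p y := by
    intro x y
    exact map_add ψ (toQuot S x) (toQuot S y)
  have p_lie : ∀ x y, p ⁅x, y⁆ = ⁅p x, p y⁆ := by
    intro x y
    exact LieEquiv.map_lie ψ (toQuot S x) (toQuot S y)
  -- degree one
  have hθ : ∀ v : V, p (gen v) = ofL 0 (proj 0 (p (gen v))) := by
    intro v
    obtain ⟨z, hz⟩ := (hψ 0 (p (gen v))).2 ⟨gen v, gen_mem_homPart v, rfl⟩
    rw [hz, proj_ofL]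
  let θ : V →+ Grd (IA 3) 0 := AddMonoidHom.mk' (fun v => proj 0 (p (gen v))) (by
    intro v w
    rw [gen_add, p_add, map_add])
  have hpθ : ∀ v : V, p (gen v) = ofL 0 (θ v) := hθ
  have hsurj : ∀ z : Grd (IA 3) 0, ∃ v : V, θ v = z := by
    intro z
    obtain ⟨x, hx, hxz⟩ := (hψ 0 (ofL 0 z)).1 ⟨z, rfl⟩
    obtain ⟨v, rfl⟩ := mem_homPart_zero hx
    refine ⟨v, ?_⟩
    change proj 0 (p (gen v)) = z
    change p (gen v) = ofL 0 z at hxz
    rw [hxz, proj_ofL]
  -- the comparison map to matrices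
  let Φ : FreeLieRing V →ₗ⁅ℤ⁆ Matrix (Fin 4) (Fin 4) ℤ := liftLie (vmat θ)
  have hΦgen : ∀ v : V, Φ (gen v) = dmat (gA (θ v)) (gB (θ v)) (gE (θ v)) :=
    fun v => liftLie_gen (vmat θ) v
  -- on degree two, `Φ` factors through `p`
  have hdeg2 : ∀ s ∈ homPart V 1, Φ s = wmat (proj 1 (p s)) := by
    intro s hs
    simp only [homPart] at hs
    induction hs using AddSubgroup.closure_induction with
    | mem x hx =>
      obtain ⟨v, y, hy, rfl⟩ := hx
      obtain ⟨w, rfl⟩ := mem_homPart_zero hy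
      rw [LieHom.map_lie, hΦgen, hΦgen, dmat_lie, p_lie, hpθ, hpθ]
      have h1 : (⁅ofL 0 (θ v), ofL 0 (θ w)⁆ : AssocLie (IA 3)) = ofL 1 (grBr 0 0 (θ v) (θ w)) :=
        lieHom_of 0 0 (θ v) (θ w)
      rw [h1, proj_ofL]
      change _ = emat (gAB (grBr 0 0 (θ v) (θ w))) (gBE (grBr 0 0 (θ v) (θ w)))
      rw [gAB_br, gBE_br]
    | zero =>
      have : p 0 = 0 := map_zero ψ
      rw [this, map_zero, map_zero, map_zero]
    | add x y _ _ hx hy =>
      rw [map_add, hx, hy, p_add, map_add, map_add]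
    | neg x _ hx =>
      have : p (-x) = - p x := map_neg ψ (toQuot S x)
      rw [this, map_neg, map_neg, map_neg, hx]
  have hker : ∀ x, p x = 0 ↔ x ∈ idealGen S := by
    intro x
    have hx : toQuot S x = 0 ↔ x ∈ idealGen S :=
      LieSubmodule.Quotient.mk_eq_zero' (N := idealGen S)
    rw [← hx]
    constructor
    · intro h
      have h2 : ψ (toQuot S x) = ψ 0 := by
        rw [map_zero]; exact h
      exact ψ.injective h2
    · intro h
      change ψ (toQuot S x) = 0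
      rw [h, map_zero]
  have hΦS : idealGen S ≤ Φ.ker := by
    rw [idealGen, LieSubmodule.lieSpan_le]
    intro s hs
    rw [SetLike.mem_coe, LieHom.mem_ker, hdeg2 s (hS s hs)]
    have : p s = 0 := (hker s).2 (LieSubmodule.subset_lieSpan hs)
    rw [this, map_zero, map_zero]
  -- the three classes
  obtain ⟨u1, hu1⟩ := hsurj (grMk 0 (⟨k1, Subgroup.mem_top _⟩ : lcs (IA 3) 0))
  obtain ⟨u2, hu2⟩ := hsurj (grMk 0 (⟨k2, Subgroup.mem_top _⟩ : lcs (IA 3) 0))
  obtain ⟨u3, hu3⟩ := hsurj (grMk 0 (⟨k3, Subgroup.mem_top _⟩ : lcs (IA 3) 0))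
  have hpx : p ⁅⁅gen u1, gen u2⁆, gen u3⁆ = 0 := by
    rw [p_lie, p_lie, hpθ, hpθ, hpθ, hu1, hu2, hu3]
    exact lie_k_eq_zero
  have hΦx : Φ ⁅⁅gen u1, gen u2⁆, gen u3⁆ = 0 := by
    have := hΦS ((hker _).1 hpx)
    rwa [LieHom.mem_ker] at this
  rw [LieHom.map_lie, LieHom.map_lie, hΦgen, hΦgen, hΦgen, hu1, hu2, hu3] at hΦx
  rw [g_k1.1, g_k1.2.1, g_k1.2.2, g_k2.1, g_k2.2.1, g_k2.2.2, g_k3.1, g_k3.2.1, g_k3.2.2,
    dmat_lie, LieRing.of_associative_ring_bracket] at hΦx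
  have h03 := congrFun (congrFun hΦx 0) 3
  simp [dmat, emat, Matrix.mul_apply, Fin.sum_univ_four] at h03

end Run7.h6.IAQuad
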